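import Pool.Agent.H11.NY.Targets

set_option autoImplicit false

namespace Pool.Agent.H69.NY.C6

open Pool.Agent.H11.NY

theorem pf_c6 : T_C6 := by
  intro q m hq hq5 hm χ i j hij hi hj τ
  have : Fact q.Prime := ⟨hq⟩
  -- a third index
  obtain ⟨k, hk⟩ : ∃ k : Fin m, k ∉ ({i, j} : Finset (Fin m)) := by
    by_contra hcon
    push Not at hcon
    have h1 : (Finset.univ : Finset (Fin m)).card ≤ ({i, j} : Finset (Fin m)).card :=
      Finset.card_le_card fun x _ => hcon x
    rw [Finset.card_univ, Fintype.card_fin] at h1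
    have h2 : ({i, j} : Finset (Fin m)).card ≤ 2 := Finset.card_le_two
    omega
  have hki : k ≠ i := fun h => hk (by simp [h])
  have hkj : k ≠ j := fun h => hk (by simp [h])
  set R : ZMod q := ∑ l ∈ (Finset.univ.erase i).erase j, χ l with hR
  obtain ⟨y, hy⟩ : ∃ y : ZMod q, y ∉ ({0, τ - R, τ - R - χ k} : Finset (ZMod q)) := by
    by_contra hcon
    push Not at hcon
    have h1 : (Finset.univ : Finset (ZMod q)).card ≤
        ({0, τ - R, τ - R - χ k} : Finset (ZMod q)).card :=
      Finset.card_le_card fun x _ => hcon x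
    rw [Finset.card_univ, ZMod.card] at h1
    have h2 : ({0, τ - R, τ - R - χ k} : Finset (ZMod q)).card ≤ 3 := Finset.card_le_three
    omega
  simp only [Finset.mem_insert, Finset.mem_singleton, not_or] at hy
  obtain ⟨hy0, hy1, hy2⟩ := hy
  have hz : τ - R - y ≠ 0 := fun h => hy1 (by linear_combination -h)
  refine ⟨fun l => if l = i then (τ - R - y) / χ i else if l = j then y / χ j else 1, ?_, ?_, ?_⟩
  · intro l
    dsimp only
    split_ifs
    · exact div_ne_zero hz hi
    · exact div_ne_zero hy0 hj
    · exact one_ne_zero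
  · have hji : j ∈ Finset.univ.erase i := Finset.mem_erase.2 ⟨hij.symm, Finset.mem_univ j⟩
    rw [← Finset.add_sum_erase _ _ (Finset.mem_univ i), ← Finset.add_sum_erase _ _ hji]
    have h3 : ∑ x ∈ (Finset.univ.erase i).erase j,
        (if x = i then (τ - R - y) / χ i else if x = j then y / χ j else 1) * χ x = R := by
      rw [hR]
      refine Finset.sum_congr rfl fun x hx => ?_
      rw [Finset.mem_erase, Finset.mem_erase] at hx
      rw [if_neg hx.2.1, if_neg hx.1, one_mul]
    rw [h3]
    dsimp only
    rw [if_pos rfl, if_neg hij.symm, if_pos rfl, div_mul_cancel₀ _ hi, div_mul_cancel₀ _ hj]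
    ring
  · refine ⟨i, k, ?_⟩
    dsimp only
    rw [if_pos rfl, if_neg hki, if_neg hkj, div_mul_cancel₀ _ hi, one_mul]
    intro h
    exact hy2 (by linear_combination -h)

end Pool.Agent.H69.NY.C6
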