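import Pool.Agent.H11.NY.Targets

set_option autoImplicit false

open Equiv (Perm)

namespace Pool.Agent.H69.NY.H3

open Pool.Agent.H11.NY

theorem self_inv {Ω : Type} (γ : Perm Ω) (ω : Ω) : γ (γ⁻¹ ω) = ω := Equiv.apply_symm_apply γ ω

/-- even permutations of a finite set of points, extended by the identity -/
def ext {Ω : Type} [Fintype Ω] [DecidableEq Ω] (Φ : Finset Ω) :
    alternatingGroup {y // y ∈ Φ} →* alternatingGroup Ω :=
  (Equiv.Perm.ofSubtype.comp (alternatingGroup {y // y ∈ Φ}).subtype).codRestrict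
    (alternatingGroup Ω) (fun t => by
      rw [Equiv.Perm.mem_alternatingGroup]
      show Equiv.Perm.sign (Equiv.Perm.ofSubtype (t : Perm {y // y ∈ Φ})) = 1
      rw [Equiv.Perm.sign_ofSubtype]
      exact Equiv.Perm.mem_alternatingGroup.1 t.2)

theorem ext_coe {Ω : Type} [Fintype Ω] [DecidableEq Ω] (Φ : Finset Ω)
    (t : alternatingGroup {y // y ∈ Φ}) :
    (ext Φ t : Perm Ω) = Equiv.Perm.ofSubtype (t : Perm {y // y ∈ Φ}) := rfl

theorem ext_fix {Ω : Type} [Fintype Ω] [DecidableEq Ω] (Φ : Finset Ω)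
    (t : alternatingGroup {y // y ∈ Φ}) (x : Ω) (hx : x ∉ Φ) : (ext Φ t : Perm Ω) x = x :=
  Equiv.Perm.ofSubtype_apply_of_not_mem _ hx

/-- every permutation fixing the points outside of `Φ` comes from `Φ` -/
theorem exists_ofSubtype {Ω : Type} [Fintype Ω] [DecidableEq Ω] (Φ : Finset Ω) (π : Perm Ω)
    (hπ : ∀ x, x ∉ Φ → π x = x) : ∃ t : Perm {y // y ∈ Φ}, Equiv.Perm.ofSubtype t = π := by
  have h1 : ∀ x, π x ∈ Φ ↔ x ∈ Φ := by
    intro x
    constructor
    · intro h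
      by_contra hx
      rw [hπ x hx] at h
      exact hx h
    · intro h
      by_contra hx
      exact hx (by rw [π.injective (hπ _ hx)]; exact h)
  refine ⟨π.subtypePerm h1, Equiv.Perm.ofSubtype_subtypePerm h1 fun x hx => ?_⟩
  by_contra h
  exact hx (hπ x h)

theorem exists_ext {Ω : Type} [Fintype Ω] [DecidableEq Ω] (Φ : Finset Ω)
    (π : alternatingGroup Ω) (hπ : ∀ x, x ∉ Φ → (π : Perm Ω) x = x) :
    ∃ t : alternatingGroup {y // y ∈ Φ}, ext Φ t = π := by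
  obtain ⟨t, ht⟩ := exists_ofSubtype Φ (π : Perm Ω) hπ
  have h1 : t ∈ alternatingGroup {y // y ∈ Φ} := by
    rw [Equiv.Perm.mem_alternatingGroup, ← Equiv.Perm.sign_ofSubtype, ht]
    exact Equiv.Perm.mem_alternatingGroup.1 π.2
  exact ⟨⟨t, h1⟩, Subtype.ext ht⟩

/-- a subgroup normalised by the elements living on `Φ` contains all of them -/
theorem all_mem {L Ω : Type} [Group L] [Fintype Ω] [DecidableEq Ω]
    (ψ : L →* alternatingGroup Ω) (hψ : Function.Surjective ψ) (Φ : Finset Ω)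
    (hΦ : 5 ≤ Φ.card) (R : Subgroup L) (hker : ψ.ker ≤ R)
    (hR : ∀ y : L, (∀ x, x ∉ Φ → (ψ y : Perm Ω) x = x) → ∀ r ∈ R, y * r * y⁻¹ ∈ R)
    (g₀ : L) (hg₀ : g₀ ∈ R) (hg₁ : ψ g₀ ≠ 1) (hg₂ : ∀ x, x ∉ Φ → (ψ g₀ : Perm Ω) x = x)
    (y : L) (hy : ∀ x, x ∉ Φ → (ψ y : Perm Ω) x = x) : y ∈ R := by
  let N : Subgroup (alternatingGroup {y // y ∈ Φ}) := (R.map ψ).comap (ext Φ)
  have hN : N.Normal := by
    constructor
    intro n hn t
    obtain ⟨r, hr, hrn⟩ := hn
    obtain ⟨u, hu⟩ := hψ (ext Φ t)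
    refine ⟨u * r * u⁻¹, hR u (fun x hx => ?_) r hr, ?_⟩
    · rw [hu]
      exact ext_fix Φ t x hx
    · rw [map_mul, map_mul, map_inv, hrn, hu]
      rw [map_mul, map_mul, map_inv]
  have hsimple : IsSimpleGroup (alternatingGroup {y // y ∈ Φ}) :=
    alternatingGroup.isSimpleGroup (by rw [Nat.card_eq_fintype_card, Fintype.card_coe]; exact hΦ)
  obtain ⟨t₀, ht₀⟩ := exists_ext Φ (ψ g₀) hg₂
  have hNt : N = ⊤ := by
    rcases hN.eq_bot_or_eq_top with h | h
    · exfalso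
      have h1 : t₀ ∈ N := ⟨g₀, hg₀, ht₀.symm⟩
      rw [h, Subgroup.mem_bot] at h1
      rw [h1, map_one] at ht₀
      exact hg₁ ht₀.symm
    · exact h
  obtain ⟨t, ht⟩ := exists_ext Φ (ψ y) hy
  have h2 : t ∈ N := by
    rw [hNt]
    exact Subgroup.mem_top t
  obtain ⟨r, hr, hrt⟩ := h2
  have h3 : y * r⁻¹ ∈ ψ.ker := by
    rw [MonoidHom.mem_ker, map_mul, map_inv, ← ht, ← hrt, mul_inv_cancel]
  have h4 := R.mul_mem (hker h3) hr
  rwa [inv_mul_cancel_right] at h4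

/-- a `q`-cycle is conjugate to its square by an even permutation -/
theorem conj_sq {Ω : Type} [Fintype Ω] [DecidableEq Ω] (Φ : Finset Ω) (q : ℕ) (hq : q.Prime)
    (hq5 : 5 ≤ q) (s' : Perm Ω) (hs : s'.IsCycle) (hsq : s'.support.card = q)
    (hsΦ : ∀ x, x ∉ Φ → s' x = x) (hΦ : q + 2 ≤ Φ.card) :
    s' ∈ alternatingGroup Ω ∧
    ∃ u : alternatingGroup Ω, (∀ x, x ∉ Φ → (u : Perm Ω) x = x) ∧
      (u : Perm Ω) * s' * (u : Perm Ω)⁻¹ = s' ^ 2 := by
  have hodd : Odd q := hq.odd_of_ne_two (by omega)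
  have hsgn : s' ∈ alternatingGroup Ω := by
    rw [Equiv.Perm.mem_alternatingGroup, hs.sign, hsq, hodd.neg_one_pow, neg_neg]
  have hord : orderOf s' = q := by rw [hs.orderOf, hsq]
  refine ⟨hsgn, ?_⟩
  obtain ⟨t, ht⟩ := exists_ext Φ ⟨s', hsgn⟩ hsΦ
  have ht' : Equiv.Perm.ofSubtype (t : Perm {y // y ∈ Φ}) = s' := congrArg Subtype.val ht
  have hinj : Function.Injective
      (Equiv.Perm.ofSubtype : Perm {y // y ∈ Φ} →* Perm Ω) := Equiv.Perm.ofSubtype_injective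
  -- the two permutations are conjugate
  have hcard : (t : Perm {y // y ∈ Φ}).support.card = q := by
    have h1 := congrArg Multiset.sum
      (Equiv.Perm.cycleType_ofSubtype (g := (t : Perm {y // y ∈ Φ})))
    rw [ht', Equiv.Perm.sum_cycleType, Equiv.Perm.sum_cycleType, hsq] at h1
    exact h1.symm
  have hcyc : (t : Perm {y // y ∈ Φ}).IsCycle := by
    have h1 : (Equiv.Perm.ofSubtype (t : Perm {y // y ∈ Φ})).IsCycle := by rw [ht']; exact hs
    have h2 := congrArg Multiset.card (Equiv.Perm.cycleType_ofSubtype (g := (t : Perm {y // y ∈ Φ})))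
    rw [Equiv.Perm.card_cycleType_eq_one.2 h1] at h2
    exact Equiv.Perm.card_cycleType_eq_one.1 h2.symm
  have hord' : orderOf (t : Perm {y // y ∈ Φ}) = q := by rw [hcyc.orderOf, hcard]
  have hcyc2 : ((t ^ 2 : alternatingGroup {y // y ∈ Φ}) : Perm {y // y ∈ Φ}).IsCycle := by
    rw [Subgroup.coe_pow]
    rw [hcyc.pow_iff, hord']
    exact (Nat.coprime_primes Nat.prime_two hq).2 (by omega)
  have hcard2 : ((t ^ 2 : alternatingGroup {y // y ∈ Φ}) : Perm {y // y ∈ Φ}).support.card = q := by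
    rw [Subgroup.coe_pow, hcyc.support_pow_of_pos_of_lt_orderOf (by omega) (by rw [hord']; omega)]
    exact hcard
  have hconj : IsConj t (t ^ 2) := by
    refine alternatingGroup.isConj_of (hcyc.isConj hcyc2 (by rw [hcard, hcard2])) ?_
    rw [hcard, Fintype.card_coe]
    exact hΦ
  obtain ⟨u, hu⟩ := isConj_iff.1 hconj
  refine ⟨ext Φ u, fun x hx => ext_fix Φ u x hx, ?_⟩
  have h3 := congrArg (fun z => (ext Φ z : Perm Ω)) hu
  rw [map_mul, map_mul, map_inv, map_pow, ht] at h3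
  exact h3

theorem pf_h3 : T_H3 := by
  intro q m L Ω _ _ _ _ ψ K V _ _ _ ρ c ω s a h ζ hset κ hκ hne hcard s' hs' hsq' hdis' χ v hv
    hsum
  obtain ⟨hq, hq5, hm, hψ, -, hscal, hcan, hωq, hω1, hqK, hcyc, hah, hprod, hζ, hrel⟩ := hset
  by_cases hv0 : v = 0
  · rw [hv0, map_zero]
  set A : Perm Ω := (ψ a : Perm Ω) with hA
  -- the action of `a` on the supports
  have hF1 : ∀ i, ∀ x ∈ (s i).support, A x = s i x := by
    intro i x hx
    have h1 : (s i) ∈ List.ofFn s := List.mem_ofFn.2 ⟨i, rfl⟩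
    have h2 : (List.ofFn s).Pairwise Equiv.Perm.Disjoint := by
      rw [List.pairwise_ofFn]
      intro i j hij
      exact hcyc.2 i j hij.ne
    have h3 := Equiv.Perm.eq_on_support_mem_disjoint h1 h2 x hx
    rw [← hprod] at h3
    exact h3.symm
  have hF2 : ∀ x ∈ A.support, ∃ i, x ∈ (s i).support := by
    intro x hx
    rw [hprod] at hx
    obtain ⟨f, hf, hxf⟩ := Equiv.Perm.exists_mem_support_of_mem_support_prod hx
    obtain ⟨i, rfl⟩ := List.mem_ofFn.1 hf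
    exact ⟨i, hxf⟩
  have hF3 : ∀ i, ∀ x ∈ (s i).support, x ∈ A.support := by
    intro i x hx
    rw [Equiv.Perm.mem_support, hF1 i x hx]
    exact Equiv.Perm.mem_support.1 hx
  have hF4 : ∀ i, ∀ x ∈ (s i).support, ∀ k : ℕ, (A ^ k) x = (s i ^ k) x := by
    intro i x hx k
    induction k with
    | zero => rfl
    | succ k ih =>
      rw [pow_succ', pow_succ', Equiv.Perm.mul_apply, Equiv.Perm.mul_apply, ih]
      exact hF1 i _ (Equiv.Perm.pow_apply_mem_support.2 hx)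
  set Φ : Finset Ω := A.supportᶜ with hΦ
  have hΦmem : ∀ x, x ∉ Φ ↔ x ∈ A.support := fun x => by
    rw [hΦ, Finset.mem_compl, not_not]
  have hΦcard : 2 * q + 2 ≤ Φ.card := by
    rw [hΦ, Finset.card_compl]
    omega
  -- the common eigenspace
  have hV0c : ∀ x : L, (∀ y, y ∉ Φ → (ψ x : Perm Ω) y = y) → ∀ i, ∀ w : V,
      c (s i) (ρ x w) = ρ x (c (s i) w) := by
    intro x hx i w
    have h1 := (hcan (s i) (hcyc.1 i).1 (hcyc.1 i).2).2.2.2 x
    have h2 : Equiv.Perm.Disjoint (ψ x : Perm Ω) (s i) := by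
      intro y
      by_cases hy : y ∈ (s i).support
      · exact Or.inl (hx y ((hΦmem y).2 (hF3 i y hy)))
      · exact Or.inr (Equiv.Perm.notMem_support.1 hy)
    have h3 : (ψ x : Perm Ω) * s i * (ψ x : Perm Ω)⁻¹ = s i := by
      rw [h2.commute.eq, mul_inv_cancel_right]
    rw [h3] at h1
    have h4 := congrArg (fun T : Module.End K V => T w) h1
    exact h4.symm
  let P : V → Prop := fun w => ∀ i, c (s i) w = ω ^ (χ i).val • w
  have hPinv : ∀ x : L, (∀ y, y ∉ Φ → (ψ x : Perm Ω) y = y) → ∀ w, P w → P (ρ x w) := by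
    intro x hx w hw i
    rw [hV0c x hx i w, hw i, map_smul]
  have hfixinv : ∀ x : L, (∀ y, y ∉ Φ → (ψ x : Perm Ω) y = y) →
      ∀ y, y ∉ Φ → (ψ x⁻¹ : Perm Ω) y = y := by
    intro x hx y hy
    rw [map_inv]
    show (ψ x : Perm Ω)⁻¹ y = y
    rw [Equiv.Perm.inv_eq_iff_eq]
    exact (hx y hy).symm
  have hfixmul : ∀ x x' : L, (∀ y, y ∉ Φ → (ψ x : Perm Ω) y = y) →
      (∀ y, y ∉ Φ → (ψ x' : Perm Ω) y = y) →
      ∀ y, y ∉ Φ → (ψ (x * x') : Perm Ω) y = y := by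
    intro x x' hx hx' y hy
    rw [map_mul]
    show (ψ x : Perm Ω) ((ψ x' : Perm Ω) y) = y
    rw [hx' y hy, hx y hy]
  have hρinv : ∀ (x : L) (w : V), ρ x (ρ x⁻¹ w) = w := by
    intro x w
    have h1 : ρ x * ρ x⁻¹ = 1 := by rw [← map_mul, mul_inv_cancel, map_one]
    exact congrArg (fun T : Module.End K V => T w) h1
  have hρinv' : ∀ (x : L) (w : V), ρ x⁻¹ (ρ x w) = w := by
    intro x w
    have h1 : ρ x⁻¹ * ρ x = 1 := by rw [← map_mul, inv_mul_cancel, map_one]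
    exact congrArg (fun T : Module.End K V => T w) h1
  have hρmul : ∀ (x y : L) (w : V), ρ (x * y) w = ρ x (ρ y w) := by
    intro x y w
    rw [map_mul]
    rfl
  -- the subgroup of the elements acting as scalars on the common eigenspace
  let R : Subgroup L :=
    { carrier := {x | (∀ y, y ∉ Φ → (ψ x : Perm Ω) y = y) ∧
        ∃ z : K, z ≠ 0 ∧ ∀ w, P w → ρ x w = z • w}
      mul_mem' := by
        rintro x x' ⟨h1, z, hz, h2⟩ ⟨h1', z', hz', h2'⟩
        refine ⟨hfixmul x x' h1 h1', z' * z, mul_ne_zero hz' hz, fun w hw => ?_⟩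
        rw [hρmul, h2' w hw, map_smul, h2 w hw, smul_smul]
      one_mem' := by
        refine ⟨fun y _ => ?_, 1, one_ne_zero, fun w _ => ?_⟩
        · rw [map_one]
          rfl
        · rw [map_one, one_smul]
          rfl
      inv_mem' := by
        rintro x ⟨h1, z, hz, h2⟩
        refine ⟨hfixinv x h1, z⁻¹, inv_ne_zero hz, fun w hw => ?_⟩
        have h3 := hρinv' x w
        rw [h2 w hw, map_smul] at h3
        rw [← h3, smul_smul, inv_mul_cancel₀ hz, one_smul, h3] }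
  have hRmem : ∀ x, x ∈ R ↔ (∀ y, y ∉ Φ → (ψ x : Perm Ω) y = y) ∧
        ∃ z : K, z ≠ 0 ∧ ∀ w, P w → ρ x w = z • w := fun x => Iff.rfl
  have hker : ψ.ker ≤ R := by
    intro x hx
    have h1 : ψ x = 1 := hx
    obtain ⟨z, hz⟩ := hscal x hx
    refine ⟨fun y _ => by rw [h1]; rfl, z, fun hz0 => hv0 ?_, fun w _ => hz w⟩
    have h2 := hρinv' x v
    rw [hz v, hz0, zero_smul, map_zero] at h2
    exact h2.symm
  have hnorm : ∀ y : L, (∀ x, x ∉ Φ → (ψ y : Perm Ω) x = x) → ∀ r ∈ R, y * r * y⁻¹ ∈ R := by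
    rintro y hy r ⟨h1, z, hz, h2⟩
    refine ⟨hfixmul _ _ (hfixmul _ _ hy h1) (hfixinv y hy), z, hz, fun w hw => ?_⟩
    rw [hρmul, hρmul, h2 _ (hPinv y⁻¹ (hfixinv y hy) w hw), map_smul, hρinv]
  -- the element `h a ^ (- κ)`
  have hAfix : ∀ x ∈ A.support, (ψ h : Perm Ω) x = (A ^ κ) x := by
    intro x hx
    obtain ⟨i, hi⟩ := hF2 x hx
    rw [hκ i x hi, hF4 i x hi]
  have hψg : (ψ (h * (a ^ κ)⁻¹) : Perm Ω) = (ψ h : Perm Ω) * (A ^ κ)⁻¹ := by
    rw [map_mul, map_inv, map_pow]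
    rfl
  have hfixw : ∀ w, P w → ρ a w = w := by
    intro w hw
    rw [hζ χ w hw, hsum, ZMod.val_zero, pow_zero, one_smul]
  have hfixk : ∀ w, P w → ∀ k : ℕ, ρ (a ^ k) w = w := by
    intro w hw k
    induction k with
    | zero =>
      rw [pow_zero, map_one]
      rfl
    | succ k ih => rw [pow_succ, hρmul, hfixw w hw, ih]
  have hgR : h * (a ^ κ)⁻¹ ∈ R := by
    refine ⟨fun y hy => ?_, 1, one_ne_zero, fun w hw => ?_⟩
    · rw [hψg, Equiv.Perm.mul_apply, hAfix, self_inv]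
      rw [← Equiv.Perm.pow_apply_mem_support (n := κ), self_inv]
      exact (hΦmem y).1 hy
    · have h1 : ρ (a ^ κ)⁻¹ w = w := by
        have h2 := hρinv' (a ^ κ) w
        rwa [hfixk w hw κ] at h2
      rw [hρmul, h1, one_smul]
      exact hrel w (hfixw w hw)
  have hg1 : ψ (h * (a ^ κ)⁻¹) ≠ 1 := by
    intro h1
    have h2 := congrArg (fun z : alternatingGroup Ω => (z : Perm Ω)) h1
    rw [hψg] at h2
    exact hne (mul_inv_eq_one.1 h2)
  have hall := all_mem ψ hψ Φ (by omega) R hker hnorm _ hgR hg1 hgR.1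
  -- the lift of `s'`
  have hs'Φ : ∀ x, x ∉ Φ → s' x = x := by
    intro x hx
    rcases hdis' x with h1 | h1
    · exact h1
    · exact absurd h1 (Equiv.Perm.mem_support.1 ((hΦmem x).1 hx))
  obtain ⟨hsgn, u, huΦ, hu⟩ := conj_sq Φ q hq hq5 s' hs' hsq' hs'Φ (by omega)
  obtain ⟨⟨d, hd, z', hz', hcd⟩, -, hpow, hcomm⟩ := hcan s' hs' hsq'
  have hdR : d ∈ R := hall d (fun x hx => by rw [hd]; exact hs'Φ x hx)
  obtain ⟨-, z, hz, hdz⟩ := hdR
  obtain ⟨x, hx⟩ := hψ u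
  have hxR : x ∈ R := hall x (fun y hy => by rw [hx]; exact huΦ y hy)
  obtain ⟨-, zx, hzx, hxz⟩ := hxR
  have hcs : ∀ w, P w → c s' w = (z' * z) • w := by
    intro w hw
    rw [hcd, LinearMap.smul_apply, hdz w hw, smul_smul]
  have h1 := congrArg (fun T : Module.End K V => T v) (hcomm x)
  have h2 : ρ x (c s' v) = c ((ψ x : Perm Ω) * s' * (ψ x : Perm Ω)⁻¹) (ρ x v) := h1
  rw [hx, hu, hpow 2 (fun hd => by have := Nat.le_of_dvd (by norm_num) hd; omega),
    hcs v hv, map_smul, hxz v hv] at h2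
  have h3 : (c s' ^ 2) (zx • v) = zx • ((z' * z) • ((z' * z) • v)) := by
    rw [map_smul, pow_two]
    show zx • c s' (c s' v) = _
    rw [hcs v hv, map_smul, hcs v hv]
  rw [h3, smul_smul, smul_smul, smul_smul] at h2
  have h4 : ((z' * z) * zx - (zx * (z' * z)) * (z' * z)) • v = 0 := by
    rw [sub_smul, h2, sub_self]
  rcases smul_eq_zero.1 h4 with h5 | h5
  · have h6 : (z' * z) * zx * (1 - z' * z) = 0 := by linear_combination h5
    have h7 : (z' * z) * zx ≠ 0 := mul_ne_zero (mul_ne_zero hz' hz) hzx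
    have h8 : z' * z = 1 := by
      rcases mul_eq_zero.1 h6 with h9 | h9
      · exact absurd h9 h7
      · linear_combination -h9
    rw [hcs v hv, h8, one_smul]
  · exact absurd h5 hv0

end Pool.Agent.H69.NY.H3
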