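import Pool.Agent.H11.NY.Targets
import Pool.Agent.H48.NS.FP
import Pool.Agent.H74.NS.AI

set_option autoImplicit false

open Equiv (Perm)

namespace Pool.Agent.H69.NY.I4

open Pool.Agent.H11.NY

theorem self_inv {Ω : Type} (γ : Perm Ω) (ω : Ω) : γ (γ⁻¹ ω) = ω := Equiv.apply_symm_apply γ ω

theorem inv_self {Ω : Type} (γ : Perm Ω) (ω : Ω) : γ⁻¹ (γ ω) = ω := Equiv.symm_apply_apply γ ω

/-- points in different cycles -/
theorem exists_points {Ω : Type} [Fintype Ω] [DecidableEq Ω] (γ : Perm Ω) (ℓ : ℕ)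
    (hℓ : 0 < ℓ) (hγ : γ ^ ℓ = 1) (n : ℕ) : ℓ * n ≤ γ.support.card →
    ∃ Δ : Finset Ω, Δ.card = n ∧ Δ ⊆ γ.support ∧
      ∀ x ∈ Δ, ∀ y ∈ Δ, ∀ k : ℕ, (γ ^ k) x = y → x = y := by
  have hmod : ∀ k : ℕ, γ ^ k = γ ^ (k % ℓ) := fun k => by
    conv_lhs => rw [← Nat.div_add_mod k ℓ, pow_add, pow_mul, hγ, one_pow, one_mul]
  induction n with
  | zero =>
    intro _
    exact ⟨∅, rfl, Finset.empty_subset _, fun x hx => absurd hx (Finset.notMem_empty x)⟩
  | succ n ih =>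
    intro h
    obtain ⟨Δ, hcard, hsub, hΔ⟩ := ih (le_trans (Nat.mul_le_mul_left ℓ (Nat.le_succ n)) h)
    have h1 : ((Finset.range ℓ).biUnion fun j => Δ.image (γ ^ j)).card ≤ ℓ * n := by
      refine le_trans Finset.card_biUnion_le ?_
      refine le_trans (Finset.sum_le_card_nsmul _ _ n fun j _ => ?_) ?_
      · exact le_trans Finset.card_image_le hcard.le
      · rw [Finset.card_range, smul_eq_mul]
    have h2 : ¬ γ.support ⊆ ((Finset.range ℓ).biUnion fun j => Δ.image (γ ^ j)) := by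
      intro hs
      have := (Finset.card_le_card hs).trans h1
      rw [Nat.mul_succ] at h
      omega
    obtain ⟨ω, hω, hω2⟩ := Finset.not_subset.1 h2
    have h3 : ∀ x ∈ Δ, ∀ k : ℕ, (γ ^ k) x ≠ ω := by
      intro x hx k hk
      refine hω2 (Finset.mem_biUnion.2 ⟨k % ℓ, Finset.mem_range.2 (Nat.mod_lt _ hℓ), ?_⟩)
      refine Finset.mem_image.2 ⟨x, hx, ?_⟩
      rw [← hmod]
      exact hk
    have h4 : ∀ x ∈ Δ, ∀ k : ℕ, (γ ^ k) ω ≠ x := by
      intro x hx k hk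
      refine h3 x hx (ℓ * k - k) ?_
      rw [← hk, ← Equiv.Perm.mul_apply, ← pow_add]
      have : ℓ * k - k + k = ℓ * k := Nat.sub_add_cancel (Nat.le_mul_of_pos_left k hℓ)
      rw [this, pow_mul, hγ, one_pow]
      rfl
    have h5 : ω ∉ Δ := fun hx => h3 ω hx 0 rfl
    refine ⟨insert ω Δ, by rw [Finset.card_insert_of_notMem h5, hcard],
      Finset.insert_subset hω hsub, ?_⟩
    intro x hx y hy k hk
    rcases Finset.mem_insert.1 hx with hx | hx
    · rcases Finset.mem_insert.1 hy with hy | hy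
      · rw [hx, hy]
      · rw [hx] at hk
        exact absurd hk (h4 y hy k)
    · rcases Finset.mem_insert.1 hy with hy | hy
      · rw [hy] at hk
        exact absurd hk (h3 x hx k)
      · exact hΔ x hx y hy k hk

/-- `x_1 x_2 ... x_n` with `x_j = g ^ j x g ^ (- j)` -/
def R {L : Type} [Group L] (g x : L) : ℕ → L
  | 0 => 1
  | n + 1 => R g x n * (g ^ (n + 1) * x * (g ^ (n + 1))⁻¹)

theorem conj_R {L : Type} [Group L] (g x : L) (n : ℕ) :
    g * (x * R g x n) * g⁻¹ = R g x (n + 1) := by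
  induction n with
  | zero => simp [R]
  | succ n ih =>
    show g * (x * (R g x n * (g ^ (n + 1) * x * (g ^ (n + 1))⁻¹))) * g⁻¹ =
      R g x (n + 1) * (g ^ (n + 1 + 1) * x * (g ^ (n + 1 + 1))⁻¹)
    rw [← ih, pow_succ' g (n + 1)]
    group

/-- moving a finite set by a permutation -/
theorem mem_image_perm {Ω : Type} [Fintype Ω] [DecidableEq Ω] (γ : Perm Ω) (Δ : Finset Ω)
    (ω : Ω) : ω ∈ Δ.image γ ↔ γ⁻¹ ω ∈ Δ := by
  constructor
  · intro h
    obtain ⟨x, hx, rfl⟩ := Finset.mem_image.1 h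
    rwa [inv_self]
  · intro h
    exact Finset.mem_image.2 ⟨_, h, self_inv γ ω⟩

theorem perfOn_conj {L Ω : Type} [Group L] [Fintype Ω] [DecidableEq Ω]
    (ψ : L →* alternatingGroup Ω) (Δ : Finset Ω) (D : Subgroup L) (h : PerfOn ψ Δ D) (y : L) :
    PerfOn ψ (Δ.image (ψ y : Perm Ω)) (D.map (MulAut.conj y).toMonoidHom) := by
  refine ⟨?_, ?_⟩
  · rw [← Subgroup.map_commutator, h.1]
  · intro d hd ω hω
    obtain ⟨e, he, rfl⟩ := hd
    have h1 : (ψ y : Perm Ω)⁻¹ ω ∉ Δ := fun h' => hω ((mem_image_perm _ _ _).2 h')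
    have h2 := h.2 e he _ h1
    show (ψ (y * e * y⁻¹) : Perm Ω) ω = ω
    rw [map_mul, map_mul, map_inv]
    show (ψ y : Perm Ω) ((ψ e : Perm Ω) ((ψ y : Perm Ω)⁻¹ ω)) = ω
    rw [h2, self_inv]

theorem pf_i4 : T_DX → T_I4 := by
  intro hDX L Ω _ _ _ _ ψ hψ K₀ hK hKψ ℓ c₀ c hℓ hℓK hloc hc hc₀ g hg hcard S hS hSsol
  have hγ : (ψ g : Perm Ω) ^ ℓ = 1 := by
    rw [← Subgroup.coe_pow, ← map_pow, hg, map_one]
    rfl
  obtain ⟨Δ, hΔc, hΔs, hΔ⟩ := exists_points (ψ g : Perm Ω) ℓ hℓ.pos hγ c hcard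
  obtain ⟨D, hD, hDall⟩ := hDX L Ω ψ hψ Δ (by omega)
  -- the translates are disjoint from `Δ`
  have hdisj : ∀ j : ℕ, 0 < j → j < ℓ → ∀ ω ∈ Δ, ((ψ g : Perm Ω) ^ j) ω ∉ Δ := by
    intro j hj hjℓ ω hω hmem
    have h1 : ((ψ g : Perm Ω) ^ j) ω = ω := (hΔ ω hω _ hmem j rfl).symm
    have h2 : Nat.gcd j ℓ = 1 := by
      refine Nat.Coprime.symm ((Nat.Prime.coprime_iff_not_dvd hℓ).2 fun hd => ?_)
      exact absurd (Nat.le_of_dvd hj hd) (by omega)
    -- `γ ω = ω`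
    have h3 : ∀ k : ℕ, (((ψ g : Perm Ω) ^ j) ^ k) ω = ω := by
      intro k
      induction k with
      | zero => rfl
      | succ k ih => rw [pow_succ, Equiv.Perm.mul_apply, h1, ih]
    obtain ⟨k, -, hk⟩ := Nat.exists_mul_mod_eq_one_of_coprime
      (show Nat.Coprime j ℓ from h2) hℓ.one_lt
    have h4 := h3 k
    rw [← pow_mul, ← Nat.div_add_mod (j * k) ℓ, hk, pow_add, pow_mul, hγ, one_pow, one_mul,
      pow_one] at h4
    exact (Equiv.Perm.mem_support.1 (hΔs hω)) h4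
  -- commutation modulo `K₀`
  have hcomm : ∀ x ∈ D, ∀ j : ℕ, 0 < j → j < ℓ →
      (g ^ j * x * (g ^ j)⁻¹) * x * (g ^ j * x * (g ^ j)⁻¹)⁻¹ * x⁻¹ ∈ K₀ := by
    intro x hx j hj hjℓ
    have h1 : Disjoint (Δ.image (ψ (g ^ j) : Perm Ω)) Δ := by
      rw [Finset.disjoint_left]
      intro ω hω hω2
      obtain ⟨ν, hν, rfl⟩ := Finset.mem_image.1 hω
      refine hdisj j hj hjℓ ν hν ?_
      rw [map_pow, Subgroup.coe_pow] at hω2
      exact hω2
    have h2 : c₀ ≤ (Δ.image (ψ (g ^ j) : Perm Ω)).card := by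
      rw [Finset.card_image_of_injective _ (Equiv.injective _)]
      omega
    exact hloc _ Δ h1 h2 (by omega) _ D (perfOn_conj ψ Δ D hD (g ^ j)) hD _
      (Subgroup.mem_map.2 ⟨x, hx, rfl⟩) x hx
  -- the product `R`
  have hR : ∀ x ∈ D, ∀ n : ℕ, n < ℓ → R g x n * x * (R g x n)⁻¹ * x⁻¹ ∈ K₀ := by
    intro x hx n
    induction n with
    | zero =>
      intro _
      simp [R, K₀.one_mem]
    | succ n ih =>
      intro hn
      have h1 := ih (by omega)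
      have h2 := hcomm x hx (n + 1) (Nat.succ_pos n) hn
      have h3 := hK.conj_mem _ h2 (R g x n)
      have h4 := K₀.mul_mem h3 h1
      have h5 : R g x (n + 1) = R g x n * (g ^ (n + 1) * x * (g ^ (n + 1))⁻¹) := rfl
      rw [h5]
      set y := g ^ (n + 1) * x * (g ^ (n + 1))⁻¹
      have h6 : R g x n * y * x * (R g x n * y)⁻¹ * x⁻¹ =
          R g x n * (y * x * y⁻¹ * x⁻¹) * (R g x n)⁻¹ * (R g x n * x * (R g x n)⁻¹ * x⁻¹) := by
        group
      rw [h6]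
      exact h4
  have hRfix : ∀ x ∈ D, ∀ n : ℕ, n < ℓ → ∀ ω ∈ Δ, (ψ (R g x n) : Perm Ω) ω = ω := by
    intro x hx n
    induction n with
    | zero =>
      intro _ ω _
      show (ψ (1 : L) : Perm Ω) ω = ω
      rw [map_one]
      rfl
    | succ n ih =>
      intro hn ω hω
      have h5 : R g x (n + 1) = R g x n * (g ^ (n + 1) * x * (g ^ (n + 1))⁻¹) := rfl
      have h6 : (ψ (g ^ (n + 1) * x * (g ^ (n + 1))⁻¹) : Perm Ω) ω = ω := by
        refine (perfOn_conj ψ Δ D hD (g ^ (n + 1))).2 _ (Subgroup.mem_map.2 ⟨x, hx, rfl⟩) ω ?_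
        intro hmem
        obtain ⟨ν, hν, hνω⟩ := Finset.mem_image.1 hmem
        rw [map_pow, Subgroup.coe_pow] at hνω
        exact hdisj (n + 1) (Nat.succ_pos n) hn ν hν (by rw [hνω]; exact hω)
      rw [h5, map_mul]
      show (ψ (R g x n) : Perm Ω) ((ψ (g ^ (n + 1) * x * (g ^ (n + 1))⁻¹) : Perm Ω) ω) = ω
      rw [h6]
      exact ih (by omega) ω hω
  -- elements of the centralizer
  have hlift : ∀ x ∈ D, ∃ y : L, g * y = y * g ∧
      ∀ ω ∈ Δ, (ψ y : Perm Ω) ω = (ψ x : Perm Ω) ω := by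
    intro x hx
    obtain ⟨n, hn⟩ : ∃ n, ℓ = n + 1 := ⟨ℓ - 1, (Nat.sub_add_cancel hℓ.one_lt.le).symm⟩
    have h1 := conj_R g x n
    have h2 : R g x (n + 1) = R g x n * x := by
      show R g x n * (g ^ (n + 1) * x * (g ^ (n + 1))⁻¹) = R g x n * x
      rw [← hn, hg, inv_one, one_mul, mul_one]
    have h3 : g * (x * R g x n) * g⁻¹ * (x * R g x n)⁻¹ ∈ K₀ := by
      rw [h1, h2]
      have h4 := hR x hx n (by omega)
      rw [mul_inv_rev, ← mul_assoc]
      exact h4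
    obtain ⟨k, hk, hkg⟩ := Pool.Agent.H48.NSFP.pf_fp L K₀ hK ℓ hℓ hℓK g
      ⟨1, by rw [pow_one]; exact hg⟩ (x * R g x n) h3
    refine ⟨x * R g x n * k, hkg, fun ω hω => ?_⟩
    have h5 : ψ k = 1 := hKψ hk
    rw [map_mul, map_mul, h5, mul_one]
    show (ψ x : Perm Ω) ((ψ (R g x n) : Perm Ω) ω) = (ψ x : Perm Ω) ω
    rw [hRfix x hx n (by omega) ω hω]
  -- the stabilizer of `Δ` in the centralizer
  let Γ : Subgroup (Subgroup.centralizer ({g} : Set L)) :=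
    { carrier := {y | ∀ ω, (ψ (y : L) : Perm Ω) ω ∈ Δ ↔ ω ∈ Δ}
      mul_mem' := by
        intro a b ha hb ω
        show (ψ ((a : L) * (b : L)) : Perm Ω) ω ∈ Δ ↔ ω ∈ Δ
        rw [map_mul]
        show (ψ (a : L) : Perm Ω) ((ψ (b : L) : Perm Ω) ω) ∈ Δ ↔ ω ∈ Δ
        rw [ha, hb]
      one_mem' := by
        intro ω
        show (ψ (1 : L) : Perm Ω) ω ∈ Δ ↔ ω ∈ Δ
        rw [map_one]
        rfl
      inv_mem' := by
        intro a ha ω
        show (ψ ((a : L)⁻¹) : Perm Ω) ω ∈ Δ ↔ ω ∈ Δ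
        rw [map_inv]
        show (ψ (a : L) : Perm Ω)⁻¹ ω ∈ Δ ↔ ω ∈ Δ
        rw [← ha, self_inv] }
  let θ : Γ →* Perm {ω // ω ∈ Δ} :=
    { toFun := fun y => (ψ ((y : Subgroup.centralizer ({g} : Set L)) : L) : Perm Ω).subtypePerm
        (fun ω => y.2 ω)
      map_one' := by
        ext ω
        show ((ψ (1 : L) : Perm Ω) (ω : Ω)) = ω
        rw [map_one]
        rfl
      map_mul' := by
        intro a b
        ext ω
        show ((ψ (((a : Subgroup.centralizer ({g} : Set L)) : L) *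
          ((b : Subgroup.centralizer ({g} : Set L)) : L)) : Perm Ω) (ω : Ω)) = _
        rw [map_mul]
        rfl }
  have hθ : ∀ (y : Γ) (ω : {ω // ω ∈ Δ}), ((θ y ω : {ω // ω ∈ Δ}) : Ω) =
      (ψ ((y : Subgroup.centralizer ({g} : Set L)) : L) : Perm Ω) ω := fun _ _ => rfl
  have hcardΔ : Fintype.card {ω // ω ∈ Δ} = c := by
    rw [Fintype.card_coe, hΔc]
  have hSsol' : Group.IsSolvable (S.comap Γ.subtype) :=
    Group.isSolvable_of_isSolvable_injective (f := Γ.subtype.subgroupComap S) (by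
      intro a b hab
      have h1 := congrArg (fun z : S => (z : Subgroup.centralizer ({g} : Set L))) hab
      exact Subtype.ext (Subtype.ext h1))
  have hmain := Pool.Agent.H74.NS.AI.pf_ai Γ {ω // ω ∈ Δ} θ (by rw [hcardΔ]; exact hc) ?_
    (S.comap Γ.subtype) (hS.comap _) hSsol' Subgroup.index_ne_zero_of_finite
  · rw [hcardΔ] at hmain
    refine hmain.trans (Nat.mul_le_mul_left 2 ?_)
    have h1 : (S.comap Γ.subtype).index = S.relIndex Γ := rfl
    rw [h1]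
    exact Nat.le_of_dvd (Nat.pos_of_ne_zero Subgroup.index_ne_zero_of_finite)
      (Subgroup.relIndex_dvd_index_of_normal S Γ)
  · intro ρ hρ
    have hsgn : Equiv.Perm.ofSubtype ρ ∈ alternatingGroup Ω := by
      rw [Equiv.Perm.mem_alternatingGroup, Equiv.Perm.sign_ofSubtype]
      exact hρ.sign
    obtain ⟨x, hx, hxσ⟩ := hDall ⟨Equiv.Perm.ofSubtype ρ, hsgn⟩
      (fun ω hω => Equiv.Perm.ofSubtype_apply_of_not_mem ρ hω)
    obtain ⟨y, hyg, hy⟩ := hlift x hx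
    have hval : ∀ ω : {ω // ω ∈ Δ}, (ψ y : Perm Ω) ω = (ρ ω : {ω // ω ∈ Δ}) := by
      intro ω
      rw [hy ω ω.2, hxσ]
      exact Equiv.Perm.ofSubtype_apply_coe ρ ω
    have hyC : y ∈ Subgroup.centralizer ({g} : Set L) := by
      rw [Subgroup.mem_centralizer_iff]
      intro z hz
      rw [Set.mem_singleton_iff] at hz
      subst hz
      exact hyg
    have hyΓ : (⟨y, hyC⟩ : Subgroup.centralizer ({g} : Set L)) ∈ Γ := by
      intro ω
      show (ψ y : Perm Ω) ω ∈ Δ ↔ ω ∈ Δ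
      constructor
      · intro h
        have h1 : (ψ y : Perm Ω) (ρ⁻¹ ⟨_, h⟩ : {ω // ω ∈ Δ}) = (ψ y : Perm Ω) ω := by
          rw [hval, self_inv]
        have h2 := (ψ y : Perm Ω).injective h1
        rw [← h2]
        exact (ρ⁻¹ ⟨_, h⟩ : {ω // ω ∈ Δ}).2
      · intro h
        rw [hval ⟨ω, h⟩]
        exact (ρ ⟨ω, h⟩).2
    refine ⟨⟨⟨y, hyC⟩, hyΓ⟩, ?_⟩
    ext ω
    rw [hθ]
    exact hval ω

end Pool.Agent.H69.NY.I4
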